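import Pool.Agent.Q183.CR.G

/-!
# Spherical caps are determined by their boundary distances and their volume

Let `0 < R < π/2` and let `B` be the closed ball of radius `R` about `c` in the unit sphere of
dimension `n = d + 1`, with boundary points `p(v) = cos R c + sin R J(v)`, `v` in `S^d`.  There is a
number `d₀`, depending only on `R`, with `d₀ = 0` if `sin² R ≤ 5/41` (that is, `R ≤ 20.4°`), such that
for `d ≥ d₀` the following holds.  Let `K` be a space with countably many Riemannian charts of
dimension `n` and boundary `b : S^d → K`, of any topology, such that
* the distances of its boundary points are at least those in `B`: `d(b(v), b(w)) ≥ ∠(p(v), p(w))`;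
* the volume of `K` is at most the volume of `B`;
* shortest paths between points and boundary points exist, and nonempty open sets have positive
  volume (both hold for compact connected Riemannian manifolds with boundary).
Then `K` is isometric to `B`, by an isometry which maps `b(v)` to `p(v)`.

So `B` is rigid in the strong sense of the theory of minimal fillings: neither the smoothness of the
metric of `K`, nor its simplicity, nor the convexity of its boundary, nor the topology of `K` is
assumed, and the boundary distances and the volume are only compared in one direction.  Simple metrics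
with the same boundary distance function have the same volume by the formula of Santaló.

Proof.  `ρ = sin R`.  A point `q` of `K` is represented by the odd homogeneous function `φ_q` on `ℝ^n`,
the odd part of the function `U_q` with `U_q(x) = cos (distance to the point x of the great sphere
polar to c)` on the unit sphere, the distance being extended from the boundary by infimal convolution
and truncated.  The centre of `φ` is the zero `p` of
`p ↦ ∫ (∫ (‖y‖² - a²)^k da) exp(-(‖y‖² - ⟨p,y⟩²)/2) y dy`, where `a` runs from `⟨p,y⟩` to `φ(y)`;
`k = 0` for small `R`.  The map from `q` to the centre of `φ_q` covers the ball of radius `ρ`, and its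
Jacobian, with respect to the volume of the sphere, is at most `1`
(`Pool.Agent.Q183.HD`, `Pool.Agent.Q183.CM`).  If the volume of `K` is at most that of `B`, the area
formula holds with equality everywhere, so that the Jacobian is `1` at almost every point `q`.  The
estimate of the Jacobian uses the bound of the derivative of `φ_q(y)` by the mean of the bounds of the
derivatives of `U_q(y)` and `U_q(-y)`; in the case of equality it gives `U_q(-y) = - U_q(y)` and
`φ_q = ⟨p,·⟩` (`jac_eq`, `jac_eq0`).  So the extended distances of `q` are those of the point `x` of
`B` over `p`.  The infimum in their definition at the end, in the great sphere, of the great circle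
from `x` through `p(w)` is attained, and it is attained at `w` only; hence `d(q, b(w)) = ∠(x, p(w))`
for all `w` (`dist_eq'`), first for almost all `q` and by continuity for all `q`.  The map `F` from
`q` to `x` does not increase distances, shortest paths from `q` to `b(w)` are mapped to great circles,
and so `F` maps balls about `q` onto balls of `B`.  If two points had the same image, `F` would map
the complement of a neighbourhood of one of them onto `B`, and this complement has less volume than
`B`, contrary to the lower bound of the volume (`vol_sub`).  So `F` is bijective, and an isometry.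
-/

set_option autoImplicit false

namespace Pool.Agent.Results.MP_07cd05_gt.CapRigidity

open Real MeasureTheory InnerProductGeometry Pool.Agent.H241R3.FV Pool.Agent.Q183.CN

/-- Between every point `q` and every boundary point there is a shortest path: there are points at
the distances `t` and `d - t` from them, where `d` is their distance. -/
def ShortestPaths {d : ℕ} {K : Type} [MetricSpace K] (S : Fill d K) : Prop :=
  ∀ (q : K) (w : Sph (d + 1)) (t : ℝ), 0 ≤ t → t ≤ dist q (S.bd w) →
    ∃ m, dist q m = t ∧ dist m (S.bd w) = dist q (S.bd w) - t

/-- Every nonempty open set contains a set of positive measure of the part `D` of a chart. -/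
def FullSupport {d : ℕ} {K : Type} [MetricSpace K] (S : Fill d K) : Prop :=
  ∀ W : Set K, IsOpen W → W.Nonempty →
    ∃ i, volume {x | x ∈ (S.chart i).D ∧ (S.chart i).map x ∈ W} ≠ 0

/-- The volume of the ball of radius `R` about `c` in the unit sphere of dimension `d + 1`. -/
noncomputable def volBall {d : ℕ} (c : E (d + 2)) (R : ℝ) : ENNReal :=
  (volume : Measure (E (d + 2))).toSphere {x : Sph (d + 2) | angle (x : E (d + 2)) c ≤ R}

theorem result {R : ℝ} (hR0 : 0 < R) (hR1 : R < π / 2) :
    ∃ d₀ : ℕ, (sin R ^ 2 ≤ 5 / 41 → d₀ = 0) ∧ ∀ d : ℕ, d₀ ≤ d →
    ∀ {K : Type} [MetricSpace K] (S : Fill d K)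
      (_ : (CompactSpace K ∧ S.Triangulated) ∨ S.NoRetraction) (_ : Continuous S.bd)
      (_ : ShortestPaths S) (_ : FullSupport S)
      {c : E (d + 2)} (_ : ‖c‖ = 1) {J : E (d + 1) →ₗᵢ[ℝ] E (d + 2)} (_ : ∀ v, inner ℝ (J v) c = 0)
      (_ : ∀ v w : Sph (d + 1), angle (bp R c J v) (bp R c J w) ≤ dist (S.bd v) (S.bd w))
      (_ : S.vol ≤ volBall c R),
      ∃ F : K → E (d + 2), (∀ q, ‖F q‖ = 1 ∧ angle (F q) c ≤ R) ∧
        (∀ x, ‖x‖ = 1 → angle x c ≤ R → ∃ q, F q = x) ∧
        (∀ q q', angle (F q) (F q') = dist q q') ∧
        ∀ v : Sph (d + 1), F (S.bd v) = bp R c J v := by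
  by_cases hs : sin R ^ 2 ≤ 5 / 41
  · refine ⟨0, fun _ => rfl, fun d _ K _ S hT hb hg hf c hc J hJ hd hv => ?_⟩
    obtain ⟨F, h1, h2, h3, h4⟩ := Pool.Agent.Q183.CR.cap_rigid_all S hT hR0 hR1 (by linarith) hb
      hg hf hc hJ hd hv
    exact ⟨F, h1, h3, h2, h4⟩
  · obtain ⟨d₀, h⟩ := Pool.Agent.Q183.CR.cap_rigid hR0 hR1
    refine ⟨d₀, fun h' => absurd h' hs, fun d hd K _ S hT hb hg hf c hc J hJ hdist hv => ?_⟩
    obtain ⟨F, h1, h2, h3, h4⟩ := h d hd S hT hb hg hf hc hJ hdist hv
    exact ⟨F, h1, h3, h2, h4⟩

end Pool.Agent.Results.MP_07cd05_gt.CapRigidity
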