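import Pool.Agent.Q176.BR.Bridge

/-!
# MP_07cd05_gt: a simple metric is determined within its projective class by the germ of its
boundary distance function

`M` is the closed unit ball of `ℝ^n`, `n ≥ 2` (every simple manifold is diffeomorphic to it). A
metric `g` is a smooth field of positive definite symmetric bilinear forms `g x v w` on `ℝ^n`.

* `IsGeod g γ u`: `γ : [0,1] → M` is a geodesic of `g` with velocity `u` (`γ'' = -Γ(γ', γ')`,
  `IsAcc`).
* `IsSimple g`: the boundary sphere is strictly convex, and for every `x` in `M` the exponential
  map `exp_x` is a diffeomorphism of its maximal domain of definition onto `M`. The Euclidean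
  metric is simple in this sense (`euclidean_is_simple`).
* `rdist g x y`: the Riemannian distance, the infimum of the lengths of the `C¹` curves in `M`.
* `SameGeodesics g g' S`: every geodesic of `g` in `M` with end point in `S` becomes a geodesic of
  `g'` after a change of the parameter.

**Theorem.** Let `g`, `g'` be simple metrics and let `U`, `V` be open sets which meet the boundary
sphere, no matter how small. If all geodesics of `g` which end in the boundary part `U ∩ ∂M` are
geodesics of `g'` up to the parametrisation, and the distance functions of `g` and `g'` coincide
for the pairs of boundary points in `V × U`, then `g = g'` on `M`.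

Proof: Gauss lemma and first variation at the boundary points, which give `g = g'` on `U ∩ ∂M`
through a quartic polynomial identity on an open cone of directions; the integral
`(det g / det g')^(2/(n+1)) g'(γ', γ')` of Painlevé, Levi-Civita, Topalov and Matveev is constant
along the geodesics, hence `g'` is conformal to `g` at every point with the factor
`(det g' / det g)^(2/(n+1))`; comparing determinants, the factor is one.
-/

set_option autoImplicit false

namespace Pool.Agent.Results.MP_07cd05_gt.GermInProjectiveClass

open Pool.Agent.Q176.SM
open scoped InnerProductSpace

theorem result (n : ℕ) (hn : 2 ≤ n) (g g' : E n → E n → E n → ℝ) (hg : IsSimple g)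
    (hg' : IsSimple g') (U V : Set (E n)) (hU : IsOpen U) (hV : IsOpen V)
    (hU' : (U ∩ bdM n).Nonempty) (hV' : (V ∩ bdM n).Nonempty)
    (hs : SameGeodesics g g' (U ∩ bdM n))
    (hd : ∀ x ∈ V ∩ bdM n, ∀ y ∈ U ∩ bdM n, rdist g x y = rdist g' x y) :
    ∀ x ∈ M n, g' x = g x :=
  Pool.Agent.Q176.BR.mainL hn hg hg' hU hV hU' hV' hs hd

/-- The definition of simple metrics is not vacuous. -/
theorem euclidean_is_simple (n : ℕ) : IsSimple (fun _ v w : E n => ⟪v, w⟫_ℝ) :=
  Pool.Agent.Q176.BR.euclL

end Pool.Agent.Results.MP_07cd05_gt.GermInProjectiveClass
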